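import Pool.Agent.Helper38.ND.Goals
import Pool.Agent.Helper17.PP0.Parts

/-!
# Project ND, packet ND-W_COR
-/

namespace Pool.Agent.Helper36.ND

open Finset Pool.Agent.Helper17.PP Pool.Agent.Helper17.PP0 Pool.Agent.Helper38.ND

section

variable {p : ℕ} [Fact p.Prime] {B B₀ k U Λ C : Type} [Field k] [Fintype k]
    [Algebra (ZMod p) k] [AddCommGroup U] [Module k U] [Fintype U] [AddCommGroup Λ] [Module k Λ]
    [Fintype Λ] [AddCommGroup C] (S : Sys p B B₀ k U Λ C)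

open Classical in
/-- `C_STJ` with arbitrary nonnegative weights. -/
theorem stj_w (hort : C_ORT) (hpmn : C_PMN) (ψ : AddChar k ℂ) (hψ : ψ ≠ 1)
    (W : Finset B → ℝ) (hW0 : ∀ b, 0 ≤ W b) (E A j : ℕ) (P : Finset B) (hti : 1 ≤ ti A j)
    (hj : 1 ≤ j) (hth : j ≤ th E j) :
    ∑ b ∈ P.powerset with S.Fam b, ∑ q ∈ b with (S.Wt E b q ∧ S.bl q = j),
      (S.cnt E b q : ℝ) * W b ≤
    (Fintype.card U / Fintype.card Λ : ℝ) * ((Fintype.card k : ℝ) - 1) *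
      ∑ b ∈ P.powerset with S.Fam b, ∑ q ∈ b with (S.Wt E b q ∧ S.bl q = j),
        (1 / Fintype.card k : ℝ) ^ (S.rt E b q).card * W b +
    ∑ b ∈ P.powerset with S.Fam b, ∑ q ∈ b with (S.Wt E b q ∧ S.bl q = j),
      ∑ D ∈ (S.rg E b q).powerset with Nat.log 2 (S.nm D) < ti A j,
        ∑ χ : AddChar Λ ℂ with (D.Nonempty ∨ χ ≠ 1),
          ‖S.part ψ E P b q D χ‖ * W b +
    ∑ i ∈ Ico (ti A j) (tb E j),
      ‖∑ b ∈ P.powerset with S.Fam b, ∑ q ∈ b with (S.Wt E b q ∧ S.bl q = j),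
        ∑ D ∈ (S.rg E b q).powerset with Nat.log 2 (S.nm D) = i, ∑ χ : AddChar Λ ℂ,
          S.part ψ E P b q D χ * (W b : ℂ)‖ := by
  have key : ∀ b ∈ P.powerset.filter (fun b ↦ S.Fam b),
      ∀ q ∈ b.filter (fun q ↦ S.Wt E b q ∧ S.bl q = j),
      (S.cnt E b q : ℝ) * W b ≤
        (Fintype.card U / Fintype.card Λ : ℝ) * ((Fintype.card k : ℝ) - 1) *
          ((1 / Fintype.card k : ℝ) ^ (S.rt E b q).card * W b) +
        ∑ D ∈ (S.rg E b q).powerset with Nat.log 2 (S.nm D) < ti A j,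
          ∑ χ : AddChar Λ ℂ with (D.Nonempty ∨ χ ≠ 1),
            ‖S.part ψ E P b q D χ‖ * W b +
        ∑ i ∈ Ico (ti A j) (tb E j),
          (∑ D ∈ (S.rg E b q).powerset with Nat.log 2 (S.nm D) = i, ∑ χ : AddChar Λ ℂ,
            S.part ψ E P b q D χ * (W b : ℂ)).re := by
    intro b hb q hq
    simp only [mem_filter, mem_powerset] at hb hq
    obtain ⟨hbP, hbF⟩ := hb
    obtain ⟨hqb, hW, hbl⟩ := hq
    have h1 := hort p B B₀ k U Λ C S ψ hψ E P b q hbP hqb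
    have h2 := hpmn p B B₀ k U Λ C S ψ E P b q hbP hqb (by rw [hbl]; exact hth)
    have hnm : ∀ D : Finset B, S.nm D ≠ 0 := by
      intro D
      unfold Sys.nm
      rw [Finset.prod_ne_zero_iff]
      intro q' _
      have := S.two_le q'
      omega
    have h3 := Pool.Agent.Helper29.PP.split_sum (S.rg E b q).powerset (by simp) (fun D ↦ Nat.log 2 (S.nm D))
      (ti A j) (tb E j) (by simp [Sys.nm]; omega) (by
        intro D hD
        rw [mem_powerset] at hD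
        have h4 : S.nm D < 2 ^ tb E (S.bl q) := by
          apply hW.small D
          · intro q' hq'
            have := hD hq'
            simp only [Sys.rg, mem_filter, mem_erase] at this
            exact this.1.2
          · intro hqD
            have := hD hqD
            simp only [Sys.rg, mem_filter, mem_erase] at this
            exact this.1.1 rfl
          · intro q' hq'
            have := hD hq'
            simp only [Sys.rg, mem_filter, mem_erase] at this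
            exact this.2.2.2
        rw [hbl] at h4
        exact Nat.log_lt_of_lt_pow (hnm D) h4) (1 : AddChar Λ ℂ) (S.part ψ E P b q)
    rw [← h1, h2] at h3
    set e : ℝ := W b with he
    have hepos : 0 ≤ e := hW0 b
    have h5 : (S.cnt E b q : ℝ) = (Fintype.card U / Fintype.card Λ : ℝ) *
        ((Fintype.card k : ℝ) - 1) * (1 / Fintype.card k : ℝ) ^ (S.rt E b q).card +
        (∑ D ∈ (S.rg E b q).powerset with Nat.log 2 (S.nm D) < ti A j,
          ∑ χ : AddChar Λ ℂ with (D.Nonempty ∨ χ ≠ 1), S.part ψ E P b q D χ).re +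
        ∑ i ∈ Ico (ti A j) (tb E j), (∑ D ∈ (S.rg E b q).powerset with Nat.log 2 (S.nm D) = i,
          ∑ χ : AddChar Λ ℂ, S.part ψ E P b q D χ).re := by
      have h6 := congrArg Complex.re h3
      rw [Complex.add_re, Complex.add_re, Complex.natCast_re] at h6
      rw [h6]
      refine congrArg₂ (· + ·) (congrArg₂ (· + ·) ?_ rfl) (Complex.re_sum _ _)
      have h7 : ((Fintype.card U / Fintype.card Λ : ℂ) * ((Fintype.card k : ℂ) - 1) *
          (1 / Fintype.card k : ℂ) ^ (S.rt E b q).card) =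
          (((Fintype.card U / Fintype.card Λ : ℝ) * ((Fintype.card k : ℝ) - 1) *
          (1 / Fintype.card k : ℝ) ^ (S.rt E b q).card : ℝ) : ℂ) := by
        push_cast
        ring
      rw [h7, Complex.ofReal_re]
    rw [h5, add_mul, add_mul, Finset.sum_mul]
    refine add_le_add (add_le_add (le_of_eq (by ring)) ?_) (le_of_eq ?_)
    · calc (∑ D ∈ (S.rg E b q).powerset with Nat.log 2 (S.nm D) < ti A j,
          ∑ χ : AddChar Λ ℂ with (D.Nonempty ∨ χ ≠ 1), S.part ψ E P b q D χ).re * e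
          ≤ ‖∑ D ∈ (S.rg E b q).powerset with Nat.log 2 (S.nm D) < ti A j,
          ∑ χ : AddChar Λ ℂ with (D.Nonempty ∨ χ ≠ 1), S.part ψ E P b q D χ‖ * e :=
            mul_le_mul_of_nonneg_right (Complex.re_le_norm _) hepos
        _ ≤ (∑ D ∈ (S.rg E b q).powerset with Nat.log 2 (S.nm D) < ti A j,
          ∑ χ : AddChar Λ ℂ with (D.Nonempty ∨ χ ≠ 1), ‖S.part ψ E P b q D χ‖) * e := by
            refine mul_le_mul_of_nonneg_right ?_ hepos
            refine (norm_sum_le _ _).trans (Finset.sum_le_sum fun D _ ↦ norm_sum_le _ _)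
        _ = _ := by
            rw [Finset.sum_mul]
            exact Finset.sum_congr rfl fun D _ ↦ Finset.sum_mul _ _ _
    · refine Finset.sum_congr rfl fun i _ ↦ ?_
      have h8 : ∑ D ∈ (S.rg E b q).powerset with Nat.log 2 (S.nm D) = i, ∑ χ : AddChar Λ ℂ,
            S.part ψ E P b q D χ * (e : ℂ) =
          (∑ D ∈ (S.rg E b q).powerset with Nat.log 2 (S.nm D) = i, ∑ χ : AddChar Λ ℂ,
            S.part ψ E P b q D χ) * (e : ℂ) := by
        rw [Finset.sum_mul]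
        exact Finset.sum_congr rfl fun D _ ↦ (Finset.sum_mul _ _ _).symm
      rw [h8, Complex.re_mul_ofReal]
  refine (Finset.sum_le_sum fun b hb ↦ Finset.sum_le_sum fun q hq ↦ key b hb q hq).trans ?_
  simp only [Finset.sum_add_distrib]
  refine add_le_add (add_le_add (le_of_eq ?_) le_rfl) ?_
  · rw [Finset.mul_sum]
    exact Finset.sum_congr rfl fun b _ ↦ (Finset.mul_sum _ _ _).symm
  · have h9 : ∑ b ∈ P.powerset with S.Fam b, ∑ q ∈ b with (S.Wt E b q ∧ S.bl q = j),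
        ∑ i ∈ Ico (ti A j) (tb E j),
          (∑ D ∈ (S.rg E b q).powerset with Nat.log 2 (S.nm D) = i, ∑ χ : AddChar Λ ℂ,
            S.part ψ E P b q D χ * (W b : ℂ)).re =
        ∑ i ∈ Ico (ti A j) (tb E j),
          (∑ b ∈ P.powerset with S.Fam b, ∑ q ∈ b with (S.Wt E b q ∧ S.bl q = j),
            ∑ D ∈ (S.rg E b q).powerset with Nat.log 2 (S.nm D) = i, ∑ χ : AddChar Λ ℂ,
              S.part ψ E P b q D χ * (W b : ℂ)).re := by
      exact Pool.Agent.Helper29.PP.re_swap _ _ _ _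
    rw [h9]
    exact Finset.sum_le_sum fun i _ ↦ Complex.re_le_norm _


open Classical in
/-- The main terms with the weight `w`. -/
noncomputable def M1w (w : ℝ → ℝ) (E : ℕ) (P : Finset B) (X : ℝ) (j : ℕ) : ℝ :=
  ∑ b ∈ P.powerset with S.Fam b, ∑ q ∈ b with (S.Wt E b q ∧ S.bl q = j),
    (1 / Fintype.card k : ℝ) ^ (S.rt E b q).card * w (S.nm b / X)

open Classical in
/-- Linearity in the weight. -/
theorem lin_w {n : ℕ} (a : ℕ → ℝ) (V : ℕ → Finset B → ℝ) (s : Finset (Finset B))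
    (t : Finset B → Finset B) (r : Finset B → B → Finset (Finset B)) {Ch : Type} [Fintype Ch]
    (G : Finset B → B → Finset B → Ch → ℂ) :
    ∑ b ∈ s, ∑ q ∈ t b, ∑ D ∈ r b q, ∑ χ : Ch, G b q D χ * ((∑ k ∈ range n, a k * V k b : ℝ) : ℂ) =
      ∑ k ∈ range n, (a k : ℂ) *
        ∑ b ∈ s, ∑ q ∈ t b, ∑ D ∈ r b q, ∑ χ : Ch, G b q D χ * (V k b : ℂ) := by
  have h1 : ∀ W : Finset B → ℂ, ∑ b ∈ s, ∑ q ∈ t b, ∑ D ∈ r b q, ∑ χ : Ch, G b q D χ * W b =
      ∑ b ∈ s, (∑ q ∈ t b, ∑ D ∈ r b q, ∑ χ : Ch, G b q D χ) * W b := by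
    intro W
    refine Finset.sum_congr rfl fun b _ ↦ ?_
    rw [Finset.sum_mul]
    refine Finset.sum_congr rfl fun q _ ↦ ?_
    rw [Finset.sum_mul]
    refine Finset.sum_congr rfl fun D _ ↦ ?_
    rw [Finset.sum_mul]
  rw [h1 fun b ↦ ((∑ k ∈ range n, a k * V k b : ℝ) : ℂ)]
  have h2 : ∀ k ∈ range n, (a k : ℂ) *
        ∑ b ∈ s, ∑ q ∈ t b, ∑ D ∈ r b q, ∑ χ : Ch, G b q D χ * (V k b : ℂ) =
      ∑ b ∈ s, (∑ q ∈ t b, ∑ D ∈ r b q, ∑ χ : Ch, G b q D χ) * ((a k : ℂ) * (V k b : ℂ)) := by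
    intro k _
    rw [h1 fun b ↦ (V k b : ℂ), Finset.mul_sum]
    refine Finset.sum_congr rfl fun b _ ↦ ?_
    ring
  rw [Finset.sum_congr rfl h2, Finset.sum_comm]
  refine Finset.sum_congr rfl fun b _ ↦ ?_
  rw [← Finset.mul_sum]
  push_cast
  rfl

open Classical in
/-- The large moduli with the weight `w`. -/
theorem lrg_w (ψ : AddChar k ℂ) (g : ℝ → ℝ) (K K₁ : ℕ) (hg1 : ∀ Y, 1 ≤ g Y)
    (hg : ∀ Y X, Y ≤ X → g Y ≤ K * g X)
    (hLRG : ∀ (E i j : ℕ) (X : ℝ) (P : Finset B), 1 ≤ j → j ≤ th E j → 1 ≤ X →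
      ‖∑ b ∈ P.powerset with S.Fam b, ∑ q ∈ b with (S.Wt E b q ∧ S.bl q = j),
      ∑ D ∈ (S.rg E b q).powerset with Nat.log 2 (S.nm D) = i, ∑ χ : AddChar Λ ℂ,
        S.part ψ E P b q D χ * (Real.exp (-(S.nm b / X)) : ℂ)‖ ≤
      K₁ * (i + 1) ^ K * (2 : ℝ) ^ (-(min i j : ℝ) / K) * (X * g X))
    (w : ℝ → ℝ) (n : ℕ) (a : ℕ → ℝ)
    (hw : ∀ t, w t = ∑ k ∈ range n, a k * Real.exp (-((k + 1) * t)))
    (E i j : ℕ) (X : ℝ) (P : Finset B) (hj : 1 ≤ j) (hth : j ≤ th E j) (hX : 1 ≤ X)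
    (hnX : (n : ℝ) ≤ X) :
    ‖∑ b ∈ P.powerset with S.Fam b, ∑ q ∈ b with (S.Wt E b q ∧ S.bl q = j),
      ∑ D ∈ (S.rg E b q).powerset with Nat.log 2 (S.nm D) = i, ∑ χ : AddChar Λ ℂ,
        S.part ψ E P b q D χ * (w (S.nm b / X) : ℂ)‖ ≤
      (K₁ * (K * ∑ k ∈ range n, |a k|)) * ((i + 1) ^ K * (2 : ℝ) ^ (-(min i j : ℝ) / K)) *
        (X * g X) := by
  have h1 : ∀ b : Finset B, w (S.nm b / X) =
      ∑ k ∈ range n, a k * Real.exp (-(S.nm b / (X / (k + 1)))) := by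
    intro b
    rw [hw]
    refine Finset.sum_congr rfl fun k _ ↦ ?_
    congr 3
    have : (0 : ℝ) < (k : ℝ) + 1 := by positivity
    field_simp
  simp only [h1]
  rw [lin_w a (fun k b ↦ Real.exp (-(S.nm b / (X / (k + 1)))))]
  refine (norm_sum_le _ _).trans ?_
  have h2 : ∀ k ∈ range n, ‖(a k : ℂ) *
      ∑ b ∈ P.powerset with S.Fam b, ∑ q ∈ b with (S.Wt E b q ∧ S.bl q = j),
      ∑ D ∈ (S.rg E b q).powerset with Nat.log 2 (S.nm D) = i, ∑ χ : AddChar Λ ℂ,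
        S.part ψ E P b q D χ * (Real.exp (-(S.nm b / (X / (k + 1)))) : ℂ)‖ ≤
      |a k| * (K₁ * K * ((i + 1) ^ K * (2 : ℝ) ^ (-(min i j : ℝ) / K)) * (X * g X)) := by
    intro k hk
    rw [mem_range] at hk
    rw [norm_mul, Complex.norm_real, Real.norm_eq_abs]
    refine mul_le_mul_of_nonneg_left ?_ (abs_nonneg _)
    have hk0 : (0 : ℝ) < (k : ℝ) + 1 := by positivity
    have hk1 : (k : ℝ) + 1 ≤ X := by
      have : ((k + 1 : ℕ) : ℝ) ≤ n := by exact_mod_cast hk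
      push_cast at this
      linarith
    have h3 : 1 ≤ X / (k + 1) := by
      rw [le_div_iff₀ hk0]; linarith
    have h4 : X / (k + 1) ≤ X := div_le_self (by linarith) (by linarith)
    refine (hLRG E i j (X / (k + 1)) P hj hth h3).trans ?_
    have h5 : X / (k + 1) * g (X / (k + 1)) ≤ X * (K * g X) :=
      mul_le_mul h4 (hg _ _ h4) (by linarith [hg1 (X / (k + 1))]) (by linarith)
    have h6 : (0 : ℝ) ≤ K₁ * (i + 1) ^ K * (2 : ℝ) ^ (-(min i j : ℝ) / K) := by positivity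
    calc _ ≤ K₁ * (i + 1) ^ K * (2 : ℝ) ^ (-(min i j : ℝ) / K) * (X * (K * g X)) :=
          mul_le_mul_of_nonneg_left h5 h6
      _ = _ := by ring
  refine (Finset.sum_le_sum h2).trans (le_of_eq ?_)
  rw [← Finset.sum_mul]
  ring

open Classical in
/-- The small moduli with the weight `w`. -/
theorem sml_w (ψ : AddChar k ℂ) (w : ℝ → ℝ) (c : ℝ)
    (hc : ∀ t, 0 ≤ t → w t ≤ c * Real.exp (-t)) (E j I : ℕ) (X : ℝ) (P : Finset B) (hX : 0 < X) :
    ∑ b ∈ P.powerset with S.Fam b, ∑ q ∈ b with (S.Wt E b q ∧ S.bl q = j),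
      ∑ D ∈ (S.rg E b q).powerset with Nat.log 2 (S.nm D) < I,
        ∑ χ : AddChar Λ ℂ with (D.Nonempty ∨ χ ≠ 1),
          ‖S.part ψ E P b q D χ‖ * w (S.nm b / X) ≤
      c * ∑ b ∈ P.powerset with S.Fam b, ∑ q ∈ b with (S.Wt E b q ∧ S.bl q = j),
      ∑ D ∈ (S.rg E b q).powerset with Nat.log 2 (S.nm D) < I,
        ∑ χ : AddChar Λ ℂ with (D.Nonempty ∨ χ ≠ 1),
          ‖S.part ψ E P b q D χ‖ * Real.exp (-(S.nm b / X)) := by
  simp only [Finset.mul_sum]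
  refine Finset.sum_le_sum fun b _ ↦ Finset.sum_le_sum fun q _ ↦ Finset.sum_le_sum fun D _ ↦
    Finset.sum_le_sum fun χ _ ↦ ?_
  have h1 := mul_le_mul_of_nonneg_left (hc (S.nm b / X) (by positivity))
    (norm_nonneg (S.part ψ E P b q D χ))
  calc _ ≤ ‖S.part ψ E P b q D χ‖ * (c * Real.exp (-(S.nm b / X))) := h1
    _ = _ := by ring

open Classical in
/-- The main terms for small `q` with the weight `w`. -/
theorem mns_w (w : ℝ → ℝ) (c : ℝ) (hc0 : 0 ≤ c)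
    (hc : ∀ t, 0 ≤ t → w t ≤ c * Real.exp (-t)) (E j : ℕ) (X : ℝ) (P : Finset B) (hX : 0 < X) :
    M1w S w E P X j ≤
      c * ∑ b ∈ P.powerset, ∑ q ∈ b with (S.Wt E b q ∧ S.bl q = j),
        (1 / Fintype.card k : ℝ) ^ (S.rt E b q).card * Real.exp (-(S.nm b / X)) := by
  have h1 : M1w S w E P X j ≤ ∑ b ∈ P.powerset with S.Fam b,
      ∑ q ∈ b with (S.Wt E b q ∧ S.bl q = j),
        c * ((1 / Fintype.card k : ℝ) ^ (S.rt E b q).card * Real.exp (-(S.nm b / X))) := by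
    unfold M1w
    refine Finset.sum_le_sum fun b _ ↦ Finset.sum_le_sum fun q _ ↦ ?_
    have h1 := mul_le_mul_of_nonneg_left (hc (S.nm b / X) (by positivity))
      (show (0 : ℝ) ≤ (1 / Fintype.card k : ℝ) ^ (S.rt E b q).card by positivity)
    calc _ ≤ (1 / Fintype.card k : ℝ) ^ (S.rt E b q).card * (c * Real.exp (-(S.nm b / X))) := h1
      _ = _ := by ring
  refine h1.trans ?_
  simp only [Finset.mul_sum]
  exact Finset.sum_le_sum_of_subset_of_nonneg (Finset.filter_subset _ _)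
    fun b _ _ ↦ Finset.sum_nonneg fun q _ ↦ by positivity

open Classical in
/-- The main terms for large `q` with the weight `w`. -/
theorem mnb_w (hMNB : C_MNB) (w : ℝ → ℝ) (hw : ∀ t, 0 ≤ t → 0 ≤ w t) (E s : ℕ) (P : Finset B)
    (X : ℝ) (hX : 0 < X) (hP : ∀ q ∈ P, S.bl q ≤ th E s) :
    ((Fintype.card k : ℝ) - 1) * ∑ j ∈ Ico s (th E s + 1), M1w S w E P X j ≤
      Fintype.card k * ∑ b ∈ P.powerset with S.Fam b, w (S.nm b / X) := by
  unfold M1w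
  rw [Finset.sum_comm, Finset.mul_sum, Finset.mul_sum]
  refine Finset.sum_le_sum fun b hb ↦ ?_
  rw [mem_filter, mem_powerset] at hb
  have hbl : ∀ q ∈ b, S.bl q < th E s + 1 := fun q hq ↦ Nat.lt_succ_of_le (hP q (hb.1 hq))
  rw [← S.sum_blocks b (fun q ↦ S.Wt E b q) s (th E s + 1)
    (fun q ↦ (1 / Fintype.card k : ℝ) ^ (S.rt E b q).card * w (S.nm b / X)) hbl,
    ← Finset.sum_mul, ← mul_assoc]
  refine mul_le_mul_of_nonneg_right ?_ (hw _ (by positivity))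
  rw [Finset.mul_sum]
  exact hMNB p B B₀ k U Λ C S E s b fun q hq ↦ hP q (hb.1 hq)

/-- One block: the bound for `T1w` with explicit error terms. -/
theorem blk_w (hort : C_ORT) (hpmn : C_PMN) (ψ : AddChar k ℂ) (hψ : ψ ≠ 1) (g : ℝ → ℝ) (K : ℕ)
    (k₁ : ℝ) (K₂ : ℕ) (w : ℝ → ℝ) (hw : ∀ t, 0 ≤ t → 0 ≤ w t) (c : ℝ) (hc0 : 0 ≤ c)
    (hc : ∀ t, 0 ≤ t → w t ≤ c * Real.exp (-t))
    (E A : ℕ) (X : ℝ) (P : Finset B) (j : ℕ) (hA : 1 ≤ ti A j) (hj : 1 ≤ j) (hjE : j ≤ th E j)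
    (hX : 1 ≤ X) (hg : 0 ≤ g X)
    (hLRG : ∀ i : ℕ, (open Classical in ‖∑ b ∈ P.powerset with S.Fam b,
      ∑ q ∈ b with (S.Wt E b q ∧ S.bl q = j),
      ∑ D ∈ (S.rg E b q).powerset with Nat.log 2 (S.nm D) = i, ∑ χ : AddChar Λ ℂ,
        S.part ψ E P b q D χ * (w (S.nm b / X) : ℂ)‖) ≤
      k₁ * ((i + 1) ^ K * (2 : ℝ) ^ (-(min i j : ℝ) / K)) * (X * g X))
    (hSML : (open Classical in ∑ b ∈ P.powerset with S.Fam b,
      ∑ q ∈ b with (S.Wt E b q ∧ S.bl q = j),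
      ∑ D ∈ (S.rg E b q).powerset with Nat.log 2 (S.nm D) < ti A j,
        ∑ χ : AddChar Λ ℂ with (D.Nonempty ∨ χ ≠ 1),
          ‖S.part ψ E P b q D χ‖ * Real.exp (-(S.nm b / X))) ≤
      K₂ * (ti A j + 2) ^ K₂ / j * min 1 (X / 2 ^ j) *
        ((max 1 (min j (lg X - (j + 1 + ti A j))) : ℕ) : ℝ) ^ (-(1 / K : ℝ)) * (X * g X)) :
    T1w S w E P X j ≤ (Fintype.card U / Fintype.card Λ : ℝ) * ((Fintype.card k : ℝ) - 1) *
        M1w S w E P X j +
      (c * K₂ * (((ti A j : ℝ) + 2) ^ K₂ / j * min 1 (2 ^ (lg X + 1) / 2 ^ j) *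
        ((max 1 (min j (lg X - (j + 1 + ti A j))) : ℕ) : ℝ) ^ (-(1 / K : ℝ))) * (X * g X) +
      k₁ * (∑ i ∈ Ico (ti A j) (tb E j),
        ((i : ℝ) + 1) ^ K * (2 : ℝ) ^ (-(min i j : ℝ) / K)) * (X * g X)) := by
  classical
  have h := stj_w S hort hpmn ψ hψ (fun b ↦ w (S.nm b / X)) (fun b ↦ hw _ (by positivity))
    E A j P hA hj hjE
  have hXg : 0 ≤ X * g X := by positivity
  rw [← add_assoc]
  refine (le_trans h ?_)
  refine add_le_add (add_le_add le_rfl ?_) ?_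
  · refine (sml_w S ψ w c hc E j (ti A j) X P (by linarith)).trans ?_
    refine (mul_le_mul_of_nonneg_left hSML hc0).trans ?_
    have hm := min_bound X j
    have h2 : (0 : ℝ) ≤ c * K₂ * (((ti A j : ℝ) + 2) ^ K₂ / j) := by positivity
    have h3 : (0 : ℝ) ≤ ((max 1 (min j (lg X - (j + 1 + ti A j))) : ℕ) : ℝ) ^ (-(1 / K : ℝ)) := by
      positivity
    calc c * (K₂ * (ti A j + 2) ^ K₂ / j * min 1 (X / 2 ^ j) *
        ((max 1 (min j (lg X - (j + 1 + ti A j))) : ℕ) : ℝ) ^ (-(1 / K : ℝ)) * (X * g X))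
        = c * K₂ * (((ti A j : ℝ) + 2) ^ K₂ / j) * min 1 (X / 2 ^ j) *
        ((max 1 (min j (lg X - (j + 1 + ti A j))) : ℕ) : ℝ) ^ (-(1 / K : ℝ)) * (X * g X) := by
          ring
      _ ≤ c * K₂ * (((ti A j : ℝ) + 2) ^ K₂ / j) * min 1 (2 ^ (lg X + 1) / 2 ^ j) *
        ((max 1 (min j (lg X - (j + 1 + ti A j))) : ℕ) : ℝ) ^ (-(1 / K : ℝ)) * (X * g X) := by
          exact mul_le_mul_of_nonneg_right
            (mul_le_mul_of_nonneg_right (mul_le_mul_of_nonneg_left hm h2) h3) hXg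
      _ = _ := by ring
  · refine (Finset.sum_le_sum fun i _ ↦ hLRG i).trans (le_of_eq ?_)
    rw [Finset.mul_sum, Finset.sum_mul]

end

/-- The packet, from the other goals. -/
theorem cor_w (hLRG : Z_LRG) (hSML : Z_SML) (hMNS : Z_MNS) (hMNB : C_MNB) (hSM1 : C_SM1)
    (hSM2 : C_SM2) (hSM3 : C_SM3) (hORT : C_ORT) (hPMN : C_PMN) : W_COR := by
  classical
  intro p _ B B₀ k U Λ C _ _ _ _ _ _ _ _ _ _ _ S ψ g K hyp w hWF ε hε
  obtain ⟨K₁, hK₁⟩ := hLRG p B B₀ k U Λ C S ψ g K hyp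
  obtain ⟨K₂, hK₂⟩ := hSML p B B₀ k U Λ C S ψ g K hyp
  obtain ⟨K₄, hK₄⟩ := hMNS p B B₀ k U Λ C S ψ g K hyp
  obtain ⟨c, hc0, hc⟩ := hWF.dom
  obtain ⟨n, a, ha⟩ := hWF.comb
  have hwn := hWF.nonneg
  have hK : 1 ≤ K := hyp.one_le
  set E := 2 * K * (K + 1) with hE
  set A := 4 * K with hAdef
  have hE1 : 1 ≤ E := by
    rw [hE]; nlinarith
  set Q : ℝ := (Fintype.card k : ℝ) with hQ
  have hQ2 : 2 ≤ Q := by
    rw [hQ]; exact_mod_cast Fintype.one_lt_card (α := k)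
  set ρ : ℝ := (Fintype.card U / Fintype.card Λ : ℝ) with hρ
  have hρ0 : 0 ≤ ρ := by positivity
  set k₁ : ℝ := K₁ * (K * ∑ k ∈ range n, |a k|) with hk₁
  have hk₁0 : 0 ≤ k₁ := by positivity
  have hQ1 : 0 ≤ Q - 1 := by linarith
  set V : ℝ := 1 + (ρ * (Q - 1) * (c * K₄) + (c * K₂ + k₁)) with hV
  have hV1 : 0 ≤ ρ * (Q - 1) * (c * K₄) := by positivity
  have hV0 : 0 < V := by positivity
  set e : ℝ := ε / V with he
  have he0 : 0 < e := by positivity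
  have hVe : V * e = ε := by
    rw [he]; field_simp
  obtain ⟨jE, hjE⟩ := le_th_of_large E hE1
  obtain ⟨j1, hj1⟩ := hSM1 K e hK he0
  obtain ⟨j2, hj2⟩ := hSM2 K K₂ A e hK he0
  obtain ⟨j3, hj3⟩ := hSM3 K E e hK hE1 he0
  refine ⟨2 + jE + j1 + j2 + j3, fun j₀ hj₀ ↦ ?_⟩
  have hth : ∀ j, j₀ ≤ j → j ≤ th E j := fun j hj ↦ hjE j (by omega)
  obtain ⟨L2, hL2⟩ := hj2 j₀ (by omega)
  obtain ⟨L3, hL3⟩ := hj3 j₀ (by omega)
  refine ⟨max (2 ^ (L2 + L3 + 9 + j₀ * j₀)) n, fun X hX P hP ↦ ?_⟩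
  have hXp : (2 : ℝ) ^ (L2 + L3 + 9 + j₀ * j₀) ≤ X := (le_max_left _ _).trans hX
  have hXn : (n : ℝ) ≤ X := (le_max_right _ _).trans hX
  have hLX := le_lg hXp
  set L := lg X with hL
  set s := Nat.sqrt L with hs
  have hX1 : 1 ≤ X := le_trans (one_le_pow₀ (by norm_num)) hXp
  have hj₀s : j₀ ≤ s := by
    rw [hs, Nat.le_sqrt]; omega
  have hgX : 1 ≤ g X := hyp.g_one X
  have hXg : 0 ≤ X * g X := by positivity
  have hT1 : ∀ j, j₀ ≤ j → T1w S w E P X j ≤ ρ * (Q - 1) * M1w S w E P X j +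
      (c * K₂ * (((ti A j : ℝ) + 2) ^ K₂ / j * min 1 (2 ^ (lg X + 1) / 2 ^ j) *
        ((max 1 (min j (lg X - (j + 1 + ti A j))) : ℕ) : ℝ) ^ (-(1 / K : ℝ))) * (X * g X) +
      k₁ * (∑ i ∈ Ico (ti A j) (tb E j),
        ((i : ℝ) + 1) ^ K * (2 : ℝ) ^ (-(min i j : ℝ) / K)) * (X * g X)) := by
    intro j hj
    refine blk_w S hORT hPMN ψ hyp.ψ_ne g K k₁ K₂ w hwn c hc0.le hc E A X P j ?_ (by omega)
      (hth j hj) hX1 (by linarith) (fun i ↦ ?_)
      (hK₂ E j (ti A j) X P (by omega) (hth j hj) hX1)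
    · unfold ti
      have : 1 ≤ Nat.log 2 j := Nat.le_log_of_pow_le (by norm_num) (by omega)
      have : 1 ≤ A := by omega
      nlinarith
    · exact lrg_w S ψ g K K₁ hyp.g_one hyp.g_mono hK₁ w n a ha E i j X P (by omega) (hth j hj)
        hX1 hXn
  have hsumSM : ∀ J, ∑ j ∈ Ico j₀ J, (c * K₂ * (((ti A j : ℝ) + 2) ^ K₂ / j *
        min 1 (2 ^ (lg X + 1) / 2 ^ j) *
        ((max 1 (min j (lg X - (j + 1 + ti A j))) : ℕ) : ℝ) ^ (-(1 / K : ℝ))) * (X * g X) +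
      k₁ * (∑ i ∈ Ico (ti A j) (tb E j),
        ((i : ℝ) + 1) ^ K * (2 : ℝ) ^ (-(min i j : ℝ) / K)) * (X * g X)) ≤
      (c * K₂ + k₁) * e * (X * g X) := by
    intro J
    rw [Finset.sum_add_distrib, ← Finset.sum_mul, ← Finset.sum_mul, ← Finset.mul_sum,
      ← Finset.mul_sum]
    have c2 := hL2 L (by omega) J
    have c1 := hj1 j₀ (by omega) J
    have hcK : 0 ≤ c * K₂ := by positivity
    have c2' := mul_le_mul_of_nonneg_left c2 hcK
    have c1' := mul_le_mul_of_nonneg_left c1 hk₁0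
    have c2'' := mul_le_mul_of_nonneg_right c2' hXg
    have c1'' := mul_le_mul_of_nonneg_right c1' hXg
    calc _ ≤ c * K₂ * e * (X * g X) + k₁ * e * (X * g X) := add_le_add c2'' c1''
      _ = _ := by ring
  have hrest0 : ∀ j, 0 ≤ (c * K₂ * (((ti A j : ℝ) + 2) ^ K₂ / j *
        min 1 (2 ^ (lg X + 1) / 2 ^ j) *
        ((max 1 (min j (lg X - (j + 1 + ti A j))) : ℕ) : ℝ) ^ (-(1 / K : ℝ))) * (X * g X) +
      k₁ * (∑ i ∈ Ico (ti A j) (tb E j),
        ((i : ℝ) + 1) ^ K * (2 : ℝ) ^ (-(min i j : ℝ) / K)) * (X * g X)) := by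
    intro j
    positivity
  -- small `j`
  have hM4 : ∑ j ∈ Ico j₀ s, M1w S w E P X j ≤ c * K₄ * e * (X * g X) := by
    have h1 : ∀ j ∈ Ico j₀ s, M1w S w E P X j ≤ c * K₄ * ((1 / j : ℝ) *
      (((j + 1 : ℕ) : ℝ) / (min (th E j + 1) (L - j - 1) : ℕ)) ^ (1 / (2 * K) : ℝ)) *
        (X * g X) := by
      intro j hj
      rw [mem_Ico] at hj
      have h2 := hK₄ E j X P (by omega) (hth j hj.1) hX1 (by
        rw [← hL]; exact sqrt_small (by omega) hj.2)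
      refine (mns_w S w c hc0.le hc E j X P (by linarith)).trans ?_
      refine (mul_le_mul_of_nonneg_left h2 hc0.le).trans (le_of_eq ?_)
      ring
    refine (Finset.sum_le_sum h1).trans ?_
    rw [← Finset.sum_mul, ← Finset.mul_sum]
    exact mul_le_mul_of_nonneg_right (mul_le_mul_of_nonneg_left (hL3 L (by omega))
      (by positivity)) hXg
  have hVX : V * e * (X * g X) = ε * (X * g X) := by rw [hVe]
  have heX : 0 ≤ e * (X * g X) := by positivity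
  refine ⟨?_, ?_⟩
  · refine (Finset.sum_le_sum fun j hj ↦ (hT1 j (mem_Ico.1 hj).1)).trans ?_
    rw [Finset.sum_add_distrib, ← Finset.mul_sum]
    have h1 : ρ * (Q - 1) * ∑ j ∈ Ico j₀ s, M1w S w E P X j ≤
        ρ * (Q - 1) * (c * K₄ * e * (X * g X)) :=
      mul_le_mul_of_nonneg_left hM4 (by positivity)
    refine (add_le_add h1 (hsumSM s)).trans ?_
    rw [← hVX, hV]
    nlinarith [heX]
  · refine (Finset.sum_le_sum fun j hj ↦ (hT1 j (by
      have := (mem_Ico.1 hj).1; omega))).trans ?_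
    rw [Finset.sum_add_distrib, ← Finset.mul_sum]
    refine add_le_add ?_ ?_
    · rw [mul_assoc]
      exact mul_le_mul_of_nonneg_left (mnb_w S hMNB w hwn E s P X (by linarith) hP) hρ0
    · have h1 : ∑ j ∈ Ico s (th E s + 1), _ ≤ _ :=
        (Finset.sum_le_sum_of_subset_of_nonneg (Finset.Ico_subset_Ico hj₀s le_rfl)
          fun j _ _ ↦ hrest0 j).trans (hsumSM (th E s + 1))
      refine h1.trans ?_
      rw [← hVX, hV]
      have h2 : 0 ≤ ρ * (Q - 1) * (c * K₄) * (e * (X * g X)) := mul_nonneg hV1 heX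
      nlinarith [heX]

theorem w_cor : Pool.Agent.Helper38.ND.W_COR :=
  cor_w (LRG.c_lrg Pool.Agent.Helper83.PP.c_lab Pool.Agent.Helper22.PP.c_dec)
    (SML.c_sml Pool.Agent.Helper83.PP.c_lab Pool.Agent.Helper22.PP.c_dec
      (Pool.Agent.Helper79.PP.c_psm Pool.Agent.Helper83.PP.c_lab))
    (MNS.c_mns Pool.Agent.Helper22.PP.c_dec)
    Pool.Agent.Helper61.PP.c_mnb
    Pool.Agent.Helper29.PP.c_sm1 Pool.Agent.Helper59.PP.c_sm2 Pool.Agent.Helper39.PP.c_sm3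
    (Pool.Agent.Helper23.PP.c_ort Pool.Agent.Helper83.PP.c_lab)
    (Pool.Agent.Helper96.PP.c_pmn Pool.Agent.Helper83.PP.c_lab)

end Pool.Agent.Helper36.ND
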